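import Mathlib
import Pool.Agent.R116.AF.Tup

set_option autoImplicit false

namespace Pool.Agent.Results.MP_409a13_co.AffinePrimeFactors

open Filter Topology

/-- `B` is a Steiner system `S(n,q,r)`: its members (the blocks) are `q`-element subsets of `Fin n`,
and every `r`-element subset of `Fin n` is contained in exactly one block. -/
def IsSteiner (n q r : ℕ) (B : Finset (Finset (Fin n))) : Prop :=
  (∀ b ∈ B, b.card = q) ∧ ∀ T : Finset (Fin n), T.card = r → ∃! b, b ∈ B ∧ T ⊆ b

/-- There is a Steiner system `S(k ^ 2 + t, k + t, t + 2)` with a nilpotent group `G` of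
automorphisms which fixes each point of a set `F` of `t + 1` points and acts regularly on the
`k ^ 2 - 1` points outside `F`. (`t = 0`: affine planes of order `k`; `t = 1`: inversive planes.) -/
def RegularOffPoints (k t : ℕ) : Prop :=
  ∃ (B : Finset (Finset (Fin (k ^ 2 + t)))) (G : Subgroup (Equiv.Perm (Fin (k ^ 2 + t))))
    (F : Finset (Fin (k ^ 2 + t))), IsSteiner (k ^ 2 + t) (k + t) (t + 2) B ∧
    Group.IsNilpotent G ∧ (∀ g ∈ G, ∀ b ∈ B, b.image g ∈ B) ∧ F.card = t + 1 ∧
    (∀ g ∈ G, ∀ x ∈ F, g x = x) ∧ ∀ x y, x ∉ F → y ∉ F → ∃! g, g ∈ G ∧ g x = y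

/-- There is a Steiner system `S(k ^ 2 + t, k + t, t + 2)` with two blocks which have exactly `t + 1`
common points, and with a nilpotent group `G` of automorphisms which fixes the two blocks and each
of their common points and acts regularly on the `(k - 1) ^ 2` points outside the two blocks. -/
def RegularOffBlocks (k t : ℕ) : Prop :=
  ∃ (B : Finset (Finset (Fin (k ^ 2 + t)))) (G : Subgroup (Equiv.Perm (Fin (k ^ 2 + t))))
    (b₁ b₂ : Finset (Fin (k ^ 2 + t))), IsSteiner (k ^ 2 + t) (k + t) (t + 2) B ∧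
    Group.IsNilpotent G ∧ (∀ g ∈ G, ∀ b ∈ B, b.image g ∈ B) ∧ b₁ ∈ B ∧ b₂ ∈ B ∧
    (b₁ ∩ b₂).card = t + 1 ∧ (∀ g ∈ G, b₁.image g = b₁ ∧ b₂.image g = b₂) ∧
    (∀ g ∈ G, ∀ x ∈ b₁ ∩ b₂, g x = x) ∧
    ∀ x y, x ∉ b₁ ∪ b₂ → y ∉ b₁ ∪ b₂ → ∃! g, g ∈ G ∧ g x = y

/-- Let `m ≥ 2`, `a ≥ 1` and `e ≥ 1`. For almost all integers `N` with exactly `m` prime factors
(counted with multiplicity; all but a proportion tending to `0` of those up to `X`, as `X → ∞`),
with `k = (a * N) ^ e`, no Steiner system `S(k ^ 2 + t, k + t, t + 2)`, `t ≥ 0`, has a nilpotent group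
of automorphisms which fixes `t + 1` points and is regular on the other points, or fixes two blocks
with `t + 1` common points and each common point and is regular on the points outside the two
blocks. -/
theorem result (m a e : ℕ) (hm : 2 ≤ m) (ha : 1 ≤ a) (he : 1 ≤ e) :
    Tendsto (fun X : ℕ =>
      ({N : ℕ | N ≤ X ∧ N.primeFactorsList.length = m ∧
          ∃ t, RegularOffPoints ((a * N) ^ e) t ∨ RegularOffBlocks ((a * N) ^ e) t}.ncard : ℝ) /
        ({N : ℕ | N ≤ X ∧ N.primeFactorsList.length = m}.ncard : ℝ)) atTop (𝓝 0) :=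
  Pool.Agent.R116.AF.density_excl Pool.Agent.R116.AF.excl_both m a e hm ha he

end Pool.Agent.Results.MP_409a13_co.AffinePrimeFactors
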